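import Pool.Agent.FHQ.StmtsW

open scoped BigOperators

noncomputable section

namespace Pool.Agent.FHQ.H59

open Polynomial Pool.Agent.FHQ

variable {k : Type} [Field k]

theorem wd_sub {e W : ℕ} {F G : k[X][X]} (hF : WD e W F) (hG : WD e W G) : WD e W (F - G) := by
  intro b hb
  rw [coeff_sub] at hb ⊢
  by_cases h1 : F.coeff b = 0
  · by_cases h2 : G.coeff b = 0
    · rw [h1, h2, sub_zero] at hb
      exact absurd rfl hb
    · rw [h1, zero_sub, natDegree_neg]
      exact hG b h2
  · by_cases h2 : G.coeff b = 0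
    · rw [h2, sub_zero]
      exact hF b h1
    · have := natDegree_sub_le (F.coeff b) (G.coeff b)
      have a1 := hF b h1
      have a2 := hG b h2
      have a3 : max (F.coeff b).natDegree (G.coeff b).natDegree + e * b ≤ W := by
        rcases max_choice (F.coeff b).natDegree (G.coeff b).natDegree with h | h <;> rw [h] <;>
          assumption
      omega

theorem wd_exists (e : ℕ) (F : k[X][X]) : ∃ W, WD e W F := by
  classical
  refine ⟨F.support.sup fun b => (F.coeff b).natDegree + e * b, ?_⟩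
  intro b hb
  exact Finset.le_sup (f := fun b => (F.coeff b).natDegree + e * b) (mem_support_iff.2 hb)

theorem wd_shift {e W : ℕ} {F : k[X][X]} (hF : WD e W F) (j : ℕ) : WD e (W + e * j) (X ^ j * F) := by
  intro b hb
  rw [coeff_X_pow_mul'] at hb ⊢
  by_cases h : j ≤ b
  · rw [if_pos h] at hb ⊢
    have := hF _ hb
    have e1 : e * b = e * (b - j) + e * j := by
      rw [← mul_add, Nat.sub_add_cancel h]
    omega
  · rw [if_neg h] at hb
    exact absurd rfl hb

theorem wd_mod {d e : ℕ} {h : k[X][X]} (hh : Mh d e h) (hd : 0 < d) (W : ℕ) :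
    ∀ n (F : k[X][X]), F.natDegree = n → WD e W F → WD e W (F %ₘ h) := by
  have hdeg : h.degree = (d : WithBot ℕ) := by
    rw [← hh.deg]
    exact degree_eq_natDegree hh.mon.ne_zero
  intro n
  induction n using Nat.strong_induction_on with
  | _ n ih =>
    intro F hF hW
    by_cases hF0 : F = 0
    · rw [hF0, zero_modByMonic]
      rw [hF0] at hW
      exact hW
    by_cases hlt : F.natDegree < d
    · rw [(modByMonic_eq_self_iff hh.mon).2]
      · exact hW
      · rw [hdeg, degree_eq_natDegree hF0]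
        exact_mod_cast hlt
    · have hdn : d ≤ F.natDegree := not_lt.1 hlt
      have hle : degree h ≤ degree F ∧ F ≠ 0 := by
        refine ⟨?_, hF0⟩
        rw [hdeg, degree_eq_natDegree hF0]
        exact_mod_cast hdn
      have hwf := div_wf_lemma hle hh.mon
      obtain ⟨G, hG⟩ : ∃ G : k[X][X], G = F - h * (C F.leadingCoeff * X ^ (F.natDegree - d)) :=
        ⟨_, rfl⟩
      rw [hh.deg, ← hG] at hwf
      have hmod : F %ₘ h = G %ₘ h := by
        apply modByMonic_eq_of_dvd_sub hh.mon
        rw [hG, sub_sub_cancel]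
        exact dvd_mul_right _ _
      have hWG : WD e W G := by
        rw [hG]
        refine wd_sub hW ?_
        have e1 : h * (C F.leadingCoeff * X ^ (F.natDegree - d)) =
            (C F.leadingCoeff * h) * X ^ (F.natDegree - d) := by ring
        rw [e1]
        intro b hb
        rw [coeff_mul_X_pow'] at hb ⊢
        have hlc : F.leadingCoeff ≠ 0 := leadingCoeff_ne_zero.2 hF0
        have hlw := hW F.natDegree hlc
        by_cases hb1 : F.natDegree - d ≤ b
        · rw [if_pos hb1] at hb ⊢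
          rw [coeff_C_mul] at hb ⊢
          have hc : h.coeff (b - (F.natDegree - d)) ≠ 0 := right_ne_zero_of_mul hb
          have hbd : b - (F.natDegree - d) ≤ d := by
            have := le_natDegree_of_ne_zero hc
            rwa [hh.deg] at this
          rcases hbd.lt_or_eq with hbd | hbd
          · have h1 := natDegree_mul_le (p := F.leadingCoeff)
              (q := h.coeff (b - (F.natDegree - d)))
            have h2 := hh.cof (b - (F.natDegree - d))
            have h3 : b + 1 ≤ F.natDegree := by omega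
            have h4 : e * (b + 1) ≤ e * F.natDegree := Nat.mul_le_mul_left e h3
            rw [mul_add, mul_one] at h4
            change F.leadingCoeff.natDegree + e * F.natDegree ≤ W at hlw
            omega
          · have h1 : h.coeff (b - (F.natDegree - d)) = 1 := by
              rw [hbd, ← hh.deg]
              exact hh.mon.coeff_natDegree
            rw [h1, mul_one]
            have h2 : b = F.natDegree := by omega
            rw [h2]
            exact hlw
        · rw [if_neg hb1] at hb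
          exact absurd rfl hb
      rw [hmod]
      by_cases hG0 : G = 0
      · rw [hG0, zero_modByMonic]
        rw [hG0] at hWG
        exact hWG
      · refine ih G.natDegree ?_ G rfl hWG
        rw [← hF]
        exact natDegree_lt_natDegree hG0 hwf

/-- the matrix of the multiplication with `F` -/
def Mx (d : ℕ) (h F : k[X][X]) : Matrix (Fin d) (Fin d) k[X] :=
  Matrix.of fun b b' : Fin d => ((X ^ (b : ℕ) * F) %ₘ h).coeff b'

theorem nrm_eq (d : ℕ) (h F : k[X][X]) : nrm d h F = (Mx d h F).det := rfl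

theorem mod_expand {d e : ℕ} {h : k[X][X]} (hh : Mh d e h) (hd : 0 < d) (G : k[X][X]) :
    G %ₘ h = ∑ b' : Fin d, C ((G %ₘ h).coeff b') * X ^ (b' : ℕ) := by
  have h1 : h ≠ 1 := by
    rintro rfl
    have := hh.deg
    rw [natDegree_one] at this
    omega
  have h2 : (G %ₘ h).natDegree < d := by
    have := natDegree_modByMonic_lt G hh.mon h1
    rwa [hh.deg] at this
  have h3 := as_sum_range_C_mul_X_pow' (G %ₘ h) h2
  rw [Finset.sum_range (fun i => C ((G %ₘ h).coeff i) * X ^ i)] at h3
  exact h3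

/-- part (a) -/
theorem nrm_natDegree {d e : ℕ} {h : k[X][X]} (hh : Mh d e h) (hd : 0 < d) (W : ℕ) (F : k[X][X])
    (hW : WD e W F) : (nrm d h F).natDegree ≤ d * W := by
  classical
  rw [nrm_eq, Matrix.det_apply]
  apply natDegree_sum_le_of_forall_le
  intro σ _
  refine (natDegree_smul_le _ _).trans ?_
  by_cases hz : ∃ i, Mx d h F (σ i) i = 0
  · obtain ⟨i, hi⟩ := hz
    have hprod : (∏ i, Mx d h F (σ i) i) = 0 := Finset.prod_eq_zero (Finset.mem_univ i) hi
    refine (congrArg natDegree hprod).trans_le ?_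
    rw [natDegree_zero]
    exact Nat.zero_le _
  push Not at hz
  refine (natDegree_prod_le _ _).trans ?_
  have hterm : ∀ i : Fin d, (Mx d h F (σ i) i).natDegree + e * (i : ℕ) ≤ W + e * ((σ i : Fin d) : ℕ) := by
    intro i
    have h1 := wd_mod hh hd _ _ _ rfl (wd_shift hW ((σ i : Fin d) : ℕ))
    exact h1 _ (hz i)
  have hsum : ∑ i : Fin d, ((Mx d h F (σ i) i).natDegree + e * (i : ℕ)) ≤
      ∑ i : Fin d, (W + e * ((σ i : Fin d) : ℕ)) := Finset.sum_le_sum fun i _ => hterm i
  rw [Finset.sum_add_distrib, Finset.sum_add_distrib] at hsum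
  have hperm : ∑ i : Fin d, e * ((σ i : Fin d) : ℕ) = ∑ i : Fin d, e * (i : ℕ) :=
    Equiv.sum_comp σ (fun i : Fin d => e * (i : ℕ))
  rw [hperm, Finset.sum_const, Finset.card_univ, Fintype.card_fin, smul_eq_mul] at hsum
  omega

/-- part (b) -/
theorem nrm_ne_zero {d e : ℕ} {h : k[X][X]} (hh : Mh d e h) (hd : 0 < d) (hi : Irreducible h)
    (F : k[X][X]) (hF : ¬ h ∣ F) : nrm d h F ≠ 0 := by
  classical
  intro h0
  rw [nrm_eq, ← Matrix.exists_vecMul_eq_zero_iff] at h0
  obtain ⟨v, hv, hv0⟩ := h0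
  obtain ⟨G, hG⟩ : ∃ G : k[X][X], G = ∑ b : Fin d, C (v b) * X ^ (b : ℕ) := ⟨_, rfl⟩
  have hcoef : ∀ b : Fin d, G.coeff b = v b := by
    intro b
    rw [hG, finsetSum_coeff, Finset.sum_eq_single b]
    · rw [coeff_C_mul, coeff_X_pow, if_pos rfl, mul_one]
    · intro c _ hc
      rw [coeff_C_mul, coeff_X_pow, if_neg, mul_zero]
      intro hbc
      exact hc (Fin.ext hbc.symm)
    · intro hb
      exact absurd (Finset.mem_univ b) hb
  have hGd : G.natDegree < d := by
    rw [hG]
    have : (∑ b : Fin d, C (v b) * X ^ (b : ℕ)).natDegree ≤ d - 1 := by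
      apply natDegree_sum_le_of_forall_le
      intro b _
      refine (natDegree_C_mul_X_pow_le _ _).trans ?_
      have := b.2
      omega
    omega
  have hdvd : h ∣ G * F := by
    rw [← modByMonic_eq_zero_iff_dvd hh.mon]
    have e1 : G * F = ∑ b : Fin d, C (v b) * (X ^ (b : ℕ) * F) := by
      rw [hG, Finset.sum_mul]
      refine Finset.sum_congr rfl fun b _ => ?_
      ring
    have e2 : (G * F) %ₘ h = ∑ b : Fin d, C (v b) * ((X ^ (b : ℕ) * F) %ₘ h) := by
      rw [e1]
      have := map_sum (modByMonicHom h) (fun b : Fin d => C (v b) * (X ^ (b : ℕ) * F)) Finset.univ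
      rw [modByMonicHom_apply] at this
      rw [this]
      refine Finset.sum_congr rfl fun b _ => ?_
      rw [modByMonicHom_apply, ← smul_eq_C_mul, ← smul_eq_C_mul, smul_modByMonic]
    rw [e2]
    ext1 j
    rw [finsetSum_coeff, coeff_zero]
    by_cases hj : j < d
    · have := congrFun hv0 ⟨j, hj⟩
      rw [Matrix.vecMul, dotProduct] at this
      rw [Pi.zero_apply] at this
      rw [← this]
      refine Finset.sum_congr rfl fun b _ => ?_
      rw [coeff_C_mul]
      rfl
    · apply Finset.sum_eq_zero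
      intro b _
      rw [coeff_C_mul]
      have h1 : h ≠ 1 := by
        rintro rfl
        have := hh.deg
        rw [natDegree_one] at this
        omega
      have h2 : ((X ^ (b : ℕ) * F) %ₘ h).natDegree < d := by
        have := natDegree_modByMonic_lt (X ^ (b : ℕ) * F) hh.mon h1
        rwa [hh.deg] at this
      rw [coeff_eq_zero_of_natDegree_lt (by omega), mul_zero]
  have hprime : Prime h := UniqueFactorizationMonoid.irreducible_iff_prime.1 hi
  rcases hprime.dvd_or_dvd hdvd with h1 | h1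
  · by_cases hG0 : G = 0
    · apply hv
      ext1 b
      rw [← hcoef b, hG0, coeff_zero, Pi.zero_apply]
    · exact hh.mon.not_dvd_of_natDegree_lt hG0 (by rw [hh.deg]; exact hGd) h1
  · exact hF h1

/-- part (e) -/
theorem nrm_bezout {d e : ℕ} {h : k[X][X]} (hh : Mh d e h) (hd : 0 < d) (F : k[X][X]) :
    ∃ A B : k[X][X], C (nrm d h F) = A * h + B * F := by
  classical
  obtain ⟨N, hN⟩ : ∃ N : Matrix (Fin d) (Fin d) k[X], N = (Mx d h F).adjugate := ⟨_, rfl⟩
  have hrow : ∀ b : Fin d, ∑ b' : Fin d, C (Mx d h F b b') * X ^ (b' : ℕ) =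
      X ^ (b : ℕ) * F - h * ((X ^ (b : ℕ) * F) /ₘ h) := by
    intro b
    rw [← modByMonic_eq_sub_mul_div, mod_expand hh hd (X ^ (b : ℕ) * F)]
    rfl
  let z : Fin d := ⟨0, hd⟩
  refine ⟨- ∑ b : Fin d, C (N z b) * ((X ^ (b : ℕ) * F) /ₘ h), ∑ b : Fin d, C (N z b) * X ^ (b : ℕ), ?_⟩
  have key : ∑ b : Fin d, C (N z b) * (∑ b' : Fin d, C (Mx d h F b b') * X ^ (b' : ℕ)) =
      C (nrm d h F) := by
    have e1 : ∑ b : Fin d, C (N z b) * (∑ b' : Fin d, C (Mx d h F b b') * X ^ (b' : ℕ)) =
        ∑ b' : Fin d, C ((N * Mx d h F) z b') * X ^ (b' : ℕ) := by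
      simp_rw [Finset.mul_sum]
      rw [Finset.sum_comm]
      refine Finset.sum_congr rfl fun b' _ => ?_
      rw [Matrix.mul_apply, map_sum, Finset.sum_mul]
      refine Finset.sum_congr rfl fun b _ => ?_
      rw [C_mul]
      ring
    rw [e1, hN, Matrix.adjugate_mul, Finset.sum_eq_single z]
    · rw [Matrix.smul_apply, Matrix.one_apply_eq, smul_eq_mul, mul_one]
      change C (Mx d h F).det * X ^ 0 = _
      rw [pow_zero, mul_one]
      rfl
    · intro b _ hb
      rw [Matrix.smul_apply, Matrix.one_apply_ne hb.symm, smul_zero, C_0, zero_mul]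
    · intro hb
      exact absurd (Finset.mem_univ z) hb
  rw [← key]
  have e2 : ∀ b : Fin d, C (N z b) * (∑ b' : Fin d, C (Mx d h F b b') * X ^ (b' : ℕ)) =
      (C (N z b) * X ^ (b : ℕ)) * F - (C (N z b) * ((X ^ (b : ℕ) * F) /ₘ h)) * h := by
    intro b
    rw [hrow]
    ring
  rw [Finset.sum_congr rfl fun b _ => e2 b, Finset.sum_sub_distrib, ← Finset.sum_mul,
    ← Finset.sum_mul]
  ring

theorem psv_C (x : k) (τ : PowerSeries k) (a : k[X]) : psv x τ (C a) = psv x 0 (C a) := by
  unfold psv
  rw [coe_eval₂RingHom, coe_eval₂RingHom, eval₂_C, eval₂_C]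

theorem psv_X (x : k) (τ : PowerSeries k) : psv x τ X = τ := by
  unfold psv
  rw [coe_eval₂RingHom, eval₂_X]

/-- part (d) -/
theorem nrm_prod {d e : ℕ} {h : k[X][X]} (hh : Mh d e h) (hd : 0 < d) (F : k[X][X]) (x : k)
    (τ : Fin d → PowerSeries k)
    (hne : ∀ i j, i ≠ j → PowerSeries.constantCoeff (τ i) ≠ PowerSeries.constantCoeff (τ j))
    (h0 : ∀ i, psv x (τ i) h = 0) : psv x 0 (C (nrm d h F)) = ∏ i, psv x (τ i) F := by
  classical
  obtain ⟨φ, hφ⟩ : ∃ φ : k[X] →+* PowerSeries k, φ = (psv x 0).comp C := ⟨_, rfl⟩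
  have hφC : ∀ (i : Fin d) a, psv x (τ i) (C a) = φ a := by
    intro i a
    rw [psv_C, hφ, RingHom.comp_apply]
  obtain ⟨V, hV⟩ : ∃ V : Matrix (Fin d) (Fin d) (PowerSeries k), V = (Matrix.vandermonde τ).transpose :=
    ⟨_, rfl⟩
  have hVa : ∀ b i, V b i = τ i ^ (b : ℕ) := by
    intro b i
    rw [hV, Matrix.transpose_apply, Matrix.vandermonde_apply]
  have hinj : Function.Injective τ := by
    intro i j hij
    by_contra hne'
    exact hne i j hne' (by rw [hij])
  have hdet : V.det ≠ 0 := by
    rw [hV, Matrix.det_transpose]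
    exact Matrix.det_vandermonde_ne_zero_iff.2 hinj
  have hmul : V * Matrix.diagonal (fun i => psv x (τ i) F) = (Mx d h F).map φ * V := by
    ext1 b i
    rw [Matrix.mul_diagonal, hVa, Matrix.mul_apply]
    have h1 : psv x (τ i) (X ^ (b : ℕ) * F) = τ i ^ (b : ℕ) * psv x (τ i) F := by
      rw [map_mul, map_pow, psv_X]
    rw [← h1]
    have h2 : X ^ (b : ℕ) * F = (X ^ (b : ℕ) * F) %ₘ h + h * ((X ^ (b : ℕ) * F) /ₘ h) :=
      (modByMonic_add_div _ _).symm
    rw [h2, map_add, map_mul, h0, zero_mul, add_zero, mod_expand hh hd (X ^ (b : ℕ) * F), map_sum]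
    refine Finset.sum_congr rfl fun b' _ => ?_
    rw [map_mul, map_pow, psv_X, hφC, hVa, Matrix.map_apply]
    rfl
  have hdd := congrArg Matrix.det hmul
  rw [Matrix.det_mul, Matrix.det_mul, Matrix.det_diagonal, mul_comm] at hdd
  have h3 := mul_right_cancel₀ hdet hdd
  rw [h3, nrm_eq]
  have h4 : ((Mx d h F).map φ).det = φ (Mx d h F).det := by
    rw [RingHom.map_det]
    rfl
  rw [h4, hφ, RingHom.comp_apply]

theorem psv_taylor (x : k) (a : k[X]) : psv x 0 (C a) = ((taylor x a : k[X]) : PowerSeries k) := by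
  have h1 : (psv x 0).comp C = (Polynomial.coeToPowerSeries.ringHom).comp
      ((taylorAlgHom x : k[X] →ₐ[k] k[X]) : k[X] →+* k[X]) := by
    apply Polynomial.ringHom_ext
    · intro c
      rw [RingHom.comp_apply, RingHom.comp_apply]
      unfold psv
      rw [coe_eval₂RingHom, eval₂_C, coe_eval₂RingHom, eval₂_C]
      rw [RingHom.coe_coe, taylorAlgHom_apply, taylor_C]
      rw [Polynomial.coeToPowerSeries.ringHom_apply, Polynomial.coe_C]
    · rw [RingHom.comp_apply, RingHom.comp_apply]
      unfold psv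
      rw [coe_eval₂RingHom, eval₂_C, coe_eval₂RingHom, eval₂_X]
      rw [RingHom.coe_coe, taylorAlgHom_apply, taylor_X]
      rw [Polynomial.coeToPowerSeries.ringHom_apply, Polynomial.coe_add, Polynomial.coe_C,
        Polynomial.coe_X, add_comm]
  have h2 := congrArg (fun f : k[X] →+* PowerSeries k => f a) h1
  simp only [RingHom.comp_apply] at h2
  rw [h2, RingHom.coe_coe, taylorAlgHom_apply, Polynomial.coeToPowerSeries.ringHom_apply]

/-- part (f) -/
theorem nrm_order {d e : ℕ} {h : k[X][X]} (hh : Mh d e h) (hd : 0 < d) (W : ℕ) (F : k[X][X]) (x : k)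
    (τ : PowerSeries k) (n : ℕ) (hW : WD e W F) (hi : Irreducible h) (hF : ¬ h ∣ F)
    (h0 : psv x τ h = 0) (hn : (PowerSeries.X : PowerSeries k) ^ n ∣ psv x τ F) : n ≤ d * W := by
  classical
  obtain ⟨A, B, hAB⟩ := nrm_bezout hh hd F
  have h1 : psv x τ (C (nrm d h F)) = psv x τ B * psv x τ F := by
    rw [hAB, map_add, map_mul, map_mul, h0, mul_zero, zero_add]
  rw [psv_C, psv_taylor] at h1
  have h2 : (PowerSeries.X : PowerSeries k) ^ n ∣ ((taylor x (nrm d h F) : k[X]) : PowerSeries k) := by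
    rw [h1]
    exact Dvd.dvd.mul_left hn _
  have h3 : taylor x (nrm d h F) ≠ 0 := by
    intro h4
    have : taylor x (nrm d h F) = taylor x 0 := by rw [h4, map_zero]
    exact nrm_ne_zero hh hd hi F hF (taylor_injective x this)
  have h5 : n ≤ (taylor x (nrm d h F)).natDegree := by
    by_contra hlt
    push Not at hlt
    rw [PowerSeries.X_pow_dvd_iff] at h2
    have h6 := h2 _ hlt
    rw [Polynomial.coeff_coe] at h6
    exact h3 (leadingCoeff_eq_zero.1 h6)
  rw [natDegree_taylor] at h5
  exact h5.trans (nrm_natDegree hh hd W F hW)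

theorem nrm : NrmStmt := by
  intro k _ d e h hh hd
  refine ⟨fun W F hW => nrm_natDegree hh hd W F hW, fun hi F hF => nrm_ne_zero hh hd hi F hF, ?_,
    fun F x τ hne h0 => nrm_prod hh hd F x τ hne h0, fun F => nrm_bezout hh hd F,
    fun W F x τ n hW hi hF h0 hn => nrm_order hh hd W F x τ n hW hi hF h0 hn⟩
  intro F x t hx hF
  obtain ⟨A, B, hAB⟩ := nrm_bezout hh hd F
  have h1 : ev x t (C (Pool.Agent.FHQ.nrm d h F)) = 0 := by
    rw [hAB]
    unfold ev at hx hF ⊢
    rw [eval₂_add, eval₂_mul, eval₂_mul, hx, hF, mul_zero, mul_zero, add_zero]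
  unfold ev at h1
  rw [eval₂_C] at h1
  exact h1

end Pool.Agent.FHQ.H59
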