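import Pool.Agent.FHQ.StmtsW

open scoped BigOperators

noncomputable section

namespace Pool.Agent.FHQ.H59

open Polynomial Pool.Agent.FHQ

variable {k : Type} [Field k]

theorem wd_exists' (e : ℕ) (F : k[X][X]) : ∃ W, WD e W F := by
  classical
  refine ⟨F.support.sup fun b => (F.coeff b).natDegree + e * b, ?_⟩
  intro b hb
  exact Finset.le_sup (f := fun b => (F.coeff b).natDegree + e * b) (mem_support_iff.2 hb)

theorem psv_CC (x : k) (τ : PowerSeries k) (a : k) : psv x τ (C (C a)) = PowerSeries.C a := by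
  unfold psv
  rw [coe_eval₂RingHom, eval₂_C, coe_eval₂RingHom, eval₂_C]

/-- `psv` as a linear map -/
def psvL (x : k) (τ : PowerSeries k) : k[X][X] →ₗ[k] PowerSeries k where
  toFun := psv x τ
  map_add' := map_add _
  map_smul' := by
    intro a F
    rw [RingHom.id_apply]
    have h1 : a • F = C (C a) * F := by
      ext1 b
      rw [coeff_smul, coeff_C_mul, smul_eq_C_mul]
    rw [h1, map_mul, psv_CC, PowerSeries.smul_eq_C_mul]

theorem not_dvd_deriv {p : ℕ} [Fact p.Prime] [CharP k p] {d e : ℕ} {h : k[X][X]} (hh : Mh d e h)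
    (hd : 0 < d) (hdp : d < p) : ¬ h ∣ derivative h := by
  have h0 : derivative h ≠ 0 := by
    intro h1
    have h2 : (derivative h).coeff (d - 1) = 0 := by rw [h1, coeff_zero]
    rw [coeff_derivative, Nat.sub_add_cancel hd] at h2
    have h3 : h.coeff d = 1 := by
      have := hh.mon.coeff_natDegree
      rwa [hh.deg] at this
    rw [h3, one_mul] at h2
    have h4 : ((d : ℕ) : k[X]) = 0 := by
      rw [← h2]
      have : ((d - 1 : ℕ) : k[X]) + 1 = (((d - 1) + 1 : ℕ) : k[X]) := by push_cast; rfl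
      rw [this, Nat.sub_add_cancel hd]
    have h5 : p ∣ d := (CharP.cast_eq_zero_iff k[X] p d).1 h4
    exact absurd (Nat.le_of_dvd hd h5) (not_le.2 hdp)
  apply hh.mon.not_dvd_of_natDegree_lt h0
  exact natDegree_derivative_lt (by rw [hh.deg]; omega)

theorem nvn (hNRM : NrmStmt) (hLOC : LocStmt) (hORD : OrdStmt) : NvnStmt := by
  classical
  intro k _ _ p _ _ d e m I h hh hd hi hdm hdp r hr hdvd
  obtain ⟨-, hNb, hNc, -, -, hNf⟩ := hNRM k d e h hh hd
  -- a simple point
  have hne := hNb hi _ (not_dvd_deriv (p := p) hh hd hdp)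
  obtain ⟨x, hx⟩ : ∃ x : k, (Pool.Agent.FHQ.nrm d h (derivative h)).eval x ≠ 0 := by
    by_contra hcon
    push Not at hcon
    exact hne (Polynomial.funext fun x => by rw [hcon x, eval_zero])
  obtain ⟨t, ht⟩ : ∃ t : k, ev x t h = 0 := by
    have h1 : (h.map (evalRingHom x)).degree ≠ 0 := by
      rw [hh.mon.degree_map, degree_eq_natDegree hh.mon.ne_zero, hh.deg]
      exact_mod_cast hd.ne'
    obtain ⟨t, ht⟩ := IsAlgClosed.exists_root _ h1
    refine ⟨t, ?_⟩
    unfold ev
    rw [eval₂_eq_eval_map]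
    exact ht
  have ht' : ev x t (derivative h) ≠ 0 := fun h0 => hx (hNc _ x t ht h0)
  obtain ⟨τ, -, hτ, -, -⟩ := hLOC k p h x t ht ht'
  -- the kernel
  have hker : ∀ F : k[X][X], psv x τ F = 0 → h ∣ F := by
    intro F hF
    by_contra hnd
    obtain ⟨W, hW⟩ := wd_exists' e F
    have := hNf W F x τ (d * W + 1) hW hi hnd hτ (by rw [hF]; exact dvd_zero _)
    omega
  have hsmall : ∀ F : k[X][X], F.natDegree < d → h ∣ F → F = 0 := by
    intro F hF hdvd
    by_contra hF0
    exact hh.mon.not_dvd_of_natDegree_lt hF0 (by rw [hh.deg]; exact hF) hdvd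
  -- the space `S`
  let T : Submodule k k[X][X] :=
    { carrier := {F | (∀ b, d ≤ b → F.coeff b = 0) ∧ ∀ b, (F.coeff b).natDegree ≤ m}
      add_mem' := by
        rintro F G ⟨hF1, hF2⟩ ⟨hG1, hG2⟩
        refine ⟨fun b hb => ?_, fun b => ?_⟩
        · rw [coeff_add, hF1 b hb, hG1 b hb, add_zero]
        · rw [coeff_add]
          exact (natDegree_add_le _ _).trans (max_le (hF2 b) (hG2 b))
      zero_mem' := by
        refine ⟨fun b _ => coeff_zero b, fun b => ?_⟩
        rw [coeff_zero, natDegree_zero]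
        exact Nat.zero_le _
      smul_mem' := by
        rintro a F ⟨hF1, hF2⟩
        refine ⟨fun b hb => ?_, fun b => ?_⟩
        · rw [coeff_smul, hF1 b hb, smul_zero]
        · rw [coeff_smul]
          exact (natDegree_smul_le _ _).trans (hF2 b) }
  have hTd : ∀ F ∈ T, F.natDegree < d := by
    rintro F ⟨hF1, -⟩
    by_contra hlt
    push Not at hlt
    have h1 := hF1 _ hlt
    have h2 : F = 0 := leadingCoeff_eq_zero.1 h1
    rw [h2, natDegree_zero] at hlt
    omega
  have hS : ∀ s ∈ T.map (psvL x τ), (PowerSeries.X : PowerSeries k) ^ p ∣ s → s = 0 := by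
    rintro s ⟨F, hF, rfl⟩ hdv
    have hFd := hTd F hF
    obtain ⟨hF1, hF2⟩ := hF
    change (PowerSeries.X : PowerSeries k) ^ p ∣ psv x τ F at hdv
    change psv x τ F = 0
    by_cases hnd : h ∣ F
    · rw [hsmall F hFd hnd, map_zero]
    · have hW : WD e (m + d * e) F := by
        intro b hb
        have h1 : b < d := by
          by_contra hlt
          exact hb (hF1 b (not_lt.1 hlt))
        have h2 : e * b ≤ d * e := by
          rw [mul_comm d e]
          exact Nat.mul_le_mul_left e h1.le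
        have h3 := hF2 b
        omega
      have := hNf _ F x τ p hW hi hnd hτ hdv
      omega
  -- the functions `u`
  obtain ⟨g, hg⟩ : ∃ g : Fin (I + 1) × Fin d ≃ Fin ((I + 1) * d), g = finProdFinEquiv := ⟨_, rfl⟩
  have hli : LinearIndependent k (fun q : Fin ((I + 1) * d) =>
      psv x τ (C (X ^ ((g.symm q).1 : ℕ)) * X ^ ((g.symm q).2 : ℕ))) := by
    rw [Fintype.linearIndependent_iff]
    intro c hc
    have h1 : psvL x τ (∑ q : Fin ((I + 1) * d),
        c q • (C (X ^ ((g.symm q).1 : ℕ)) * X ^ ((g.symm q).2 : ℕ) : k[X][X])) = 0 := by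
      rw [map_sum, ← hc]
      refine Finset.sum_congr rfl fun q _ => ?_
      rw [map_smul]
      rfl
    obtain ⟨P, hP⟩ : ∃ P : k[X][X], P = ∑ q : Fin ((I + 1) * d),
        c q • (C (X ^ ((g.symm q).1 : ℕ)) * X ^ ((g.symm q).2 : ℕ) : k[X][X]) := ⟨_, rfl⟩
    rw [← hP] at h1
    have hPd : P.natDegree < d := by
      have : P.natDegree ≤ d - 1 := by
        rw [hP]
        apply natDegree_sum_le_of_forall_le
        intro q _
        refine (natDegree_smul_le _ _).trans ((natDegree_C_mul_X_pow_le _ _).trans ?_)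
        have := (g.symm q).2.2
        omega
      omega
    have hP0 : P = 0 := hsmall P hPd (hker P h1)
    intro q0
    have h2 : (P.coeff ((g.symm q0).2 : ℕ)).coeff ((g.symm q0).1 : ℕ) = c q0 := by
      rw [hP, finsetSum_coeff, finsetSum_coeff, Finset.sum_eq_single q0]
      · rw [coeff_smul, coeff_smul, coeff_C_mul, coeff_X_pow, if_pos rfl, mul_one, coeff_X_pow,
          if_pos rfl, smul_eq_mul, mul_one]
      · intro q _ hq
        rw [coeff_smul, coeff_smul, coeff_C_mul, coeff_X_pow]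
        by_cases h3 : ((g.symm q0).2 : ℕ) = ((g.symm q).2 : ℕ)
        · rw [if_pos h3, mul_one, coeff_X_pow]
          by_cases h4 : ((g.symm q0).1 : ℕ) = ((g.symm q).1 : ℕ)
          · exfalso
            apply hq
            apply g.symm.injective
            exact Prod.ext (Fin.ext h4.symm) (Fin.ext h3.symm)
          · rw [if_neg h4, smul_zero]
        · rw [if_neg h3, mul_zero, coeff_zero, smul_zero]
      · intro hq
        exact absurd (Finset.mem_univ q0) hq
    rw [← h2, hP0, coeff_zero, coeff_zero]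
  have hmain : ∑ q : Fin ((I + 1) * d), psv x τ (r (g.symm q).1 (g.symm q).2) *
      (psv x τ (C (X ^ ((g.symm q).1 : ℕ)) * X ^ ((g.symm q).2 : ℕ))) ^ p = 0 := by
    rw [Equiv.sum_comp g.symm (fun q : Fin (I + 1) × Fin d => psv x τ (r q.1 q.2) *
      (psv x τ (C (X ^ (q.1 : ℕ)) * X ^ (q.2 : ℕ))) ^ p), Fintype.sum_prod_type]
    obtain ⟨Q, hQ⟩ := hdvd
    have h1 : psv x τ (∑ i : Fin (I + 1), ∑ j : Fin d,
        r i j * (C (X ^ (i : ℕ)) * X ^ (j : ℕ)) ^ p) = 0 := by
      rw [hQ, map_mul, hτ, zero_mul]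
    rw [map_sum] at h1
    rw [← h1]
    refine Finset.sum_congr rfl fun i _ => ?_
    rw [map_sum]
    refine Finset.sum_congr rfl fun j _ => ?_
    have e1 : psv x τ (r i j * (C (X ^ (i : ℕ)) * X ^ (j : ℕ)) ^ p) =
        psv x τ (r i j) * (psv x τ (C (X ^ (i : ℕ)) * X ^ (j : ℕ))) ^ p := by
      rw [map_mul (psv x τ) (r i j), map_pow (psv x τ)]
    exact e1.symm
  have hrT : ∀ i j, r i j ∈ T := by
    intro i j
    refine ⟨fun b hb => ?_, (hr i j).2⟩
    exact coeff_eq_zero_of_natDegree_lt ((hr i j).1.trans_le hb)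
  have hfin := hORD k p (T.map (psvL x τ)) hS _ _
    (fun q => psv x τ (r (g.symm q).1 (g.symm q).2)) hli
    (fun q => ⟨_, hrT _ _, rfl⟩) hmain
  intro i j
  have h1 := hfin (g (i, j))
  simp only [Equiv.symm_apply_apply] at h1
  exact hsmall _ (hr i j).1 (hker _ h1)

end Pool.Agent.FHQ.H59
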